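import Mathlib
import Pool.Agent.W5h34.ET.Dich

set_option autoImplicit false

/-!
# The Erdős–Turán problem: representation functions which are automatic modulo a prime

For a set `A` of natural numbers let `r_{A,i}(n)` be the number of `i`-tuples of elements of `A` with sum `n`
(`r_{A,2} = r_A`). A sequence `u` is `p`-automatic if it has only finitely many subsequences of the form
`n ↦ u (p ^ k n + r)`, `0 ≤ r < p ^ k` (its `p`-kernel is finite).

Let `p` be a prime and let `s(n) = ∑_{i ≤ h} ∑_{j ≤ D} c_{i,j} r_{A,i}(n - j)` be any combination with integer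
coefficients, `h ≥ 1`, in which not all of `c_{h,0}, …, c_{h,D}` are divisible by `p`; for instance `s = r_{A,h}`.

(1) `s` modulo `p` is `p`-automatic if and only if `A` is `p`-automatic.

(2) Let `s` modulo `m` be `p`-automatic or eventually periodic, for some multiple `m` of `p`. Then either
`|A ∩ [0, N]| ≤ C (log (N + 2)) ^ k` for all `N`, or for every `B ⊇ A` there is `c > 0` such that `r_B(n) ≥ n ^ c`
for infinitely many `n`. If `A` is an asymptotic basis of some order, or if `a_n ≤ C n ^ k` for all `n ≥ 1` (for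
some `C`, `k`), then the second alternative holds.

(3) So for a counterexample `A` to Q1 or Q2 and for all `h ≥ 1` and `m ≥ 2` the sequence `r_{A,h}` modulo `m` is
neither eventually periodic nor `p`-automatic for a prime divisor `p` of `m`.

Method. Christol's theorem (the easy half is in the starting file `Pool.Agent.H509R3.Yao.AlgRel`, the other half
is proved in `Pool.Agent.W5h34.ET.Chr`): modulo `p` the generating series of `A` is a root of a nonzero
polynomial over the field of rational functions, since it is a root of a nonconstant polynomial with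
algebraic coefficients. The dichotomy for automatic sets is a case of the starting result `AffineSystems`.
-/

namespace Pool.Agent.Results.MP_12a1af_nt.AutomaticModuloPrimes

open Finset

/-- `r_A(n)`: the number of ordered pairs of elements of `A` with sum `n` -/
noncomputable def rep (A : Set ℕ) (n : ℕ) : ℕ :=
  {q : ℕ × ℕ | q.1 ∈ A ∧ q.2 ∈ A ∧ q.1 + q.2 = n}.ncard

/-- `r_{A,h}(n)`: the number of `h`-tuples of elements of `A` with sum `n` -/
noncomputable def repH (A : Set ℕ) (h n : ℕ) : ℕ :=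
  {f : Fin h → ℕ | (∀ i, f i ∈ A) ∧ ∑ i, f i = n}.ncard

/-- `s(n) = ∑_{i ≤ h} ∑_{j ≤ D} c_{i,j} r_{A,i}(n - j)` (the terms with `j > n` are omitted) -/
noncomputable def comb (A : Set ℕ) (c : ℕ → ℕ → ℤ) (D h n : ℕ) : ℤ :=
  ∑ i ∈ range (h + 1), ∑ j ∈ range (D + 1), if j ≤ n then c i j * repH A i (n - j) else 0

/-- `p`-automatic sequences: the `p`-kernel is finite -/
def IsAutomatic {α : Type} (p : ℕ) (u : ℕ → α) : Prop :=
  {v : ℕ → α | ∃ k r : ℕ, r < p ^ k ∧ v = fun n => u (p ^ k * n + r)}.Finite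

/-- eventually periodic sequences -/
def EventuallyPeriodic {α : Type} (u : ℕ → α) : Prop := ∃ T n₀ : ℕ, 1 ≤ T ∧ ∀ n, n₀ ≤ n → u (n + T) = u n

/-- at most `C (log (N + 2)) ^ k` elements up to `N` -/
def Polylog (A : Set ℕ) : Prop :=
  ∃ (C : ℝ) (k : ℕ), ∀ N : ℕ, ((A ∩ Set.Iic N).ncard : ℝ) ≤ C * Real.log (N + 2) ^ k

/-- `r_A(n) ≥ n ^ c` for infinitely many `n`, for some `c > 0` -/
def LargeRep (A : Set ℕ) : Prop :=
  ∃ c : ℝ, 0 < c ∧ ∀ N₀ : ℕ, ∃ n : ℕ, N₀ ≤ n ∧ (n : ℝ) ^ c ≤ (rep A n : ℝ)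

/-- every large integer is a sum of `k` elements of `A` -/
def Basis (A : Set ℕ) (k : ℕ) : Prop := ∃ n₀ : ℕ, ∀ n, n₀ ≤ n → 1 ≤ repH A k n

/-- `A` is infinite and its `n`-th element is at most `C n ^ k` -/
def PolynomialGrowth (A : Set ℕ) (k : ℕ) : Prop :=
  A.Infinite ∧ ∃ C : ℕ, ∀ n, 1 ≤ n → Nat.nth (· ∈ A) (n - 1) ≤ C * n ^ k

theorem automatic_iff (p : ℕ) (hp : p.Prime) (A : Set ℕ) (c : ℕ → ℕ → ℤ) (D h : ℕ) (hh : 1 ≤ h)
    (hc : ∃ j ≤ D, ¬ (p : ℤ) ∣ c h j) :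
    IsAutomatic p (fun n => ((comb A c D h n : ℤ) : ZMod p)) ↔ IsAutomatic p (fun n => n ∈ A) := by
  haveI : Fact p.Prime := ⟨hp⟩
  constructor
  · intro hk
    exact (Pool.Agent.W5h34.ET.ker_prop A).1 (Pool.Agent.W5h34.ET.ker_ind A c D h hh hc hk)
  · intro hk
    exact Pool.Agent.W5h34.ET.ker_comb A c D h ((Pool.Agent.W5h34.ET.ker_prop A).2 hk)

theorem dichotomy (p m : ℕ) (hp : p.Prime) (hm : p ∣ m) (A : Set ℕ) (c : ℕ → ℕ → ℤ) (D h : ℕ) (hh : 1 ≤ h)
    (hc : ∃ j ≤ D, ¬ (p : ℤ) ∣ c h j)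
    (hk : IsAutomatic p (fun n => ((comb A c D h n : ℤ) : ZMod m)) ∨
      EventuallyPeriodic (fun n => ((comb A c D h n : ℤ) : ZMod m))) :
    (Polylog A ∨ ∀ B : Set ℕ, A ⊆ B → LargeRep B) ∧
      ((∃ k, Basis A k ∨ PolynomialGrowth A k) → ∀ B : Set ℕ, A ⊆ B → LargeRep B) := by
  haveI : Fact p.Prime := ⟨hp⟩
  have e : (fun n => ((comb A c D h n : ℤ) : ZMod p)) =
      fun n => ZMod.castHom hm (ZMod p) ((comb A c D h n : ℤ) : ZMod m) := by
    funext n
    rw [map_intCast]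
  have h1 : IsAutomatic p (fun n => ((comb A c D h n : ℤ) : ZMod p)) := by
    rcases hk with hk | ⟨T, n₀, hT, hper⟩
    · rw [e]
      exact Pool.Agent.W5h34.ET.ker_comp p (fun n => ((comb A c D h n : ℤ) : ZMod m))
        (ZMod.castHom hm (ZMod p)) hk
    · refine Pool.Agent.W5h34.ET.ker_periodic p (fun n => ((comb A c D h n : ℤ) : ZMod p)) T n₀ hT
        fun n hn => ?_
      have h2 := hper n hn
      simp only at h2 ⊢
      have h3 := congrArg (ZMod.castHom hm (ZMod p)) h2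
      rw [map_intCast, map_intCast] at h3
      exact h3
  have h3 := (Pool.Agent.W5h34.ET.ker_prop A).2 ((automatic_iff p hp A c D h hh hc).1 h1)
  have h4 : Polylog A ∨ ∀ B : Set ℕ, A ⊆ B → LargeRep B := Pool.Agent.W5h34.ET.dich A h3
  refine ⟨h4, ?_⟩
  rintro ⟨k, hbk⟩
  refine h4.resolve_left ?_
  rcases hbk with ⟨n₀, hb⟩ | ⟨hinf, C, hC⟩
  · exact Pool.Agent.W5h34.ET.not_polylog A k 2 (Pool.Agent.W5h34.ET.basis_growth A k n₀ hb)
  · exact Pool.Agent.W5h34.ET.not_polylog A (k + 1) (C + 1)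
      (Pool.Agent.W5h34.ET.nth_growth A hinf k C hC)

theorem comb_single (A : Set ℕ) (h n : ℕ) :
    comb A (fun i _ => if i = h then 1 else 0) 0 h n = repH A h n := by
  unfold comb
  rw [sum_eq_single_of_mem h (mem_range.2 (by omega))]
  · simp
  · intro i _ hi
    simp [hi]

theorem rep_eq (A : Set ℕ) (n : ℕ) : rep A n = repH A 2 n := by
  unfold rep repH
  apply Set.ncard_congr (fun (q : ℕ × ℕ) _ => ![q.1, q.2])
  · rintro ⟨a, b⟩ ⟨h1, h2, h3⟩
    refine ⟨fun i => ?_, ?_⟩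
    · fin_cases i
      · exact h1
      · exact h2
    · rw [Fin.sum_univ_two]
      exact h3
  · rintro ⟨a, b⟩ ⟨a', b'⟩ _ _ h
    have h0 := congrFun h 0
    have h1 := congrFun h 1
    simp only [Matrix.cons_val_zero, Matrix.cons_val_one] at h0 h1
    rw [h0, h1]
  · rintro f ⟨h1, h2⟩
    rw [Fin.sum_univ_two] at h2
    refine ⟨(f 0, f 1), ⟨h1 0, h1 1, h2⟩, ?_⟩
    funext i
    fin_cases i <;> rfl

theorem result :
    -- (1)
    (∀ p : ℕ, p.Prime → ∀ (A : Set ℕ) (c : ℕ → ℕ → ℤ) (D h : ℕ), 1 ≤ h → (∃ j ≤ D, ¬ (p : ℤ) ∣ c h j) →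
      (IsAutomatic p (fun n => ((comb A c D h n : ℤ) : ZMod p)) ↔ IsAutomatic p (fun n => n ∈ A))) ∧
    -- (2)
    (∀ p m : ℕ, p.Prime → p ∣ m → ∀ (A : Set ℕ) (c : ℕ → ℕ → ℤ) (D h : ℕ), 1 ≤ h →
      (∃ j ≤ D, ¬ (p : ℤ) ∣ c h j) →
      (IsAutomatic p (fun n => ((comb A c D h n : ℤ) : ZMod m)) ∨
        EventuallyPeriodic (fun n => ((comb A c D h n : ℤ) : ZMod m))) →
      (Polylog A ∨ ∀ B : Set ℕ, A ⊆ B → LargeRep B) ∧
        ((∃ k, Basis A k ∨ PolynomialGrowth A k) → ∀ B : Set ℕ, A ⊆ B → LargeRep B)) ∧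
    -- (3)
    (∀ A : Set ℕ, (∃ K : ℕ, ∀ n, rep A n ≤ K) →
      ((∃ n₀ : ℕ, ∀ n, n₀ ≤ n → 1 ≤ rep A n) ∨ PolynomialGrowth A 2) →
      ∀ h m : ℕ, 1 ≤ h → 2 ≤ m → ¬ EventuallyPeriodic (fun n => (repH A h n : ZMod m)) ∧
        ∀ p : ℕ, p.Prime → p ∣ m → ¬ IsAutomatic p (fun n => (repH A h n : ZMod m))) := by
  refine ⟨automatic_iff, dichotomy, ?_⟩
  rintro A ⟨K, hK⟩ hA h m hh hm
  have hcomb : (fun n => (repH A h n : ZMod m)) =
      fun n => ((comb A (fun i _ => if i = h then 1 else 0) 0 h n : ℤ) : ZMod m) := by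
    funext n
    rw [comb_single]
    push_cast
    rfl
  have hnot : ¬ LargeRep A := by
    rintro ⟨c, hc, h1⟩
    have h2 : Filter.Tendsto (fun n : ℕ => (n : ℝ) ^ c) Filter.atTop Filter.atTop :=
      (tendsto_rpow_atTop hc).comp tendsto_natCast_atTop_atTop
    obtain ⟨N₀, hN₀⟩ := Filter.eventually_atTop.1 (h2.eventually_gt_atTop (K : ℝ))
    obtain ⟨n, hn, hn2⟩ := h1 N₀
    have h3 := hN₀ n hn
    have h4 : (rep A n : ℝ) ≤ K := by exact_mod_cast hK n
    linarith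
  have hgrow : ∃ k, Basis A k ∨ PolynomialGrowth A k := by
    rcases hA with ⟨n₀, hn₀⟩ | hA
    · exact ⟨2, Or.inl ⟨n₀, fun n hn => by rw [← rep_eq]; exact hn₀ n hn⟩⟩
    · exact ⟨2, Or.inr hA⟩
  have key : ∀ p : ℕ, p.Prime → p ∣ m →
      ¬ (IsAutomatic p (fun n => (repH A h n : ZMod m)) ∨
        EventuallyPeriodic (fun n => (repH A h n : ZMod m))) := by
    intro p hp hpm hor
    rw [hcomb] at hor
    refine hnot ((dichotomy p m hp hpm A _ 0 h hh ⟨0, le_rfl, ?_⟩ hor).2 hgrow A (fun _ hx => hx))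
    simp only [if_true]
    intro h1
    have h2 := Int.le_of_dvd one_pos h1
    have h3 := hp.two_le
    omega
  refine ⟨fun hper => ?_, fun p hp hpm hauto => key p hp hpm (Or.inl hauto)⟩
  obtain ⟨p, hp, hpm⟩ := Nat.exists_prime_and_dvd (by omega : m ≠ 1)
  exact key p hp hpm (Or.inr hper)

end Pool.Agent.Results.MP_12a1af_nt.AutomaticModuloPrimes
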