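import Pool.Agent.W6h19.ET.Main

set_option autoImplicit false

/-!
# MP_12a1af_nt, Q2 and Q1: one random shift per dyadic block

Let `A` be an infinite set with `a_n ≤ C n²` (`IsThick`; this is the hypothesis of Q2 and follows from
that of Q1).  Translate each dyadic block `A ∩ [2^k, 2^(k+1))` as a whole by a random amount `t_k`, the
`t_k` being independent; nothing is changed inside the blocks, and up to `x` there are only
`log₂ x` random numbers.

1. For all `C` and `M` there is an `m₀` such that, if `t_k` takes every value `y ≤ m₀ 2^k` with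
   probability at least `k^(-1/M) / 2^k` (`k` large), then almost surely the representation function
   of the translated set is at least `M` infinitely often.
2. In particular this holds if `t_k` is uniformly distributed on `{0, …, m 2^k}` and `m ≥ m₀`.
3. If `t_k` is uniformly distributed on `{0, …, w_k 2^k}`, where `w_k → ∞` and `w_k = k^(o(1))`
   (for instance arbitrarily slowly), then almost surely the representation function is unbounded.

Idea.  If two blocks `A_k`, `A_l` have a number with `M` representations, it remains after the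
translation.  Otherwise every interval of length `h` contains `O(√(M h))` elements of a block, and in
every window of `O(1)` consecutive levels there is a block `A_l` with `≫ 2^(l/2)` elements.  Hence one
finds nested intervals in which `A_k` is dense, with gaps, and rich levels `l_1 > … > l_M` with
`k - l_i = O(1)` and a point `x` such that `A_k` has many elements at distance between `2^(l_i + 1)`
and `m₀ 2^(l_i)` to the left of `x`, in disjoint intervals.  Then `x = a_i + b_i + t_(l_i)` with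
`a_i ∈ A_k`, `b_i ∈ A_(l_i)` has probability bounded below, independently for `i = 1, …, M`, and gives
`M` representations of `x + t_k`.
-/

open MeasureTheory ProbabilityTheory Filter

namespace Pool.Agent.Results.MP_12a1af_nt.BlockShifts

/-- `r_A(n)`: the number of ordered pairs of elements of `A` with sum `n`. -/
noncomputable def rep (A : Set ℕ) (n : ℕ) : ℕ :=
  {p : ℕ × ℕ | p.1 ∈ A ∧ p.2 ∈ A ∧ p.1 + p.2 = n}.ncard

/-- `A` is infinite and `a_n ≤ C n²` for all `n ≥ 1` (`Nat.nth` counts from `0`). -/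
def IsThick (A : Set ℕ) (C : ℕ) : Prop :=
  A.Infinite ∧ ∀ n, Nat.nth (fun a => a ∈ A) n ≤ C * (n + 1) ^ 2

/-- The set obtained from `A` if the elements `a ∈ A` with `2^k ≤ a < 2^(k+1)` are translated by
`τ k` (and `0 ∈ A` by `τ 0`). -/
def moved (A : Set ℕ) (τ : ℕ → ℕ) : Set ℕ := {x | ∃ a ∈ A, x = a + τ (Nat.log 2 a)}

/-- Almost surely the representation function of the translated set is at least `M` infinitely
often. -/
def OftenAtLeast {Ω : Type} [MeasurableSpace Ω] (μ : Measure Ω) (A : Set ℕ) (t : ℕ → Ω → ℕ)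
    (M : ℕ) : Prop :=
  ∀ᵐ ω ∂μ, ∀ N : ℕ, ∃ n ≥ N, M ≤ rep (moved A fun k => t k ω) n

/-- Statement 1. -/
def General (C M : ℕ) : Prop :=
  ∃ m₀ : ℕ, ∀ A : Set ℕ, IsThick A C →
    ∀ (Ω : Type) [MeasurableSpace Ω] (μ : Measure Ω) [IsProbabilityMeasure μ] (t : ℕ → Ω → ℕ),
      (∀ k, Measurable (t k)) → iIndepFun t μ →
      (∀ᶠ k : ℕ in atTop, ∀ y ≤ m₀ * 2 ^ k,
        (k : ℝ) ^ (-(1 / M : ℝ)) / 2 ^ k ≤ μ.real {ω | t k ω = y}) →
      OftenAtLeast μ A t M

/-- Statement 2. -/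
def Uniform (C M : ℕ) : Prop :=
  ∃ m₀ : ℕ, ∀ m ≥ m₀, ∀ A : Set ℕ, IsThick A C →
    ∀ (Ω : Type) [MeasurableSpace Ω] (μ : Measure Ω) [IsProbabilityMeasure μ] (t : ℕ → Ω → ℕ),
      (∀ k, Measurable (t k)) → iIndepFun t μ →
      (∀ k : ℕ, ∀ y ≤ m * 2 ^ k, μ.real {ω | t k ω = y} = 1 / (m * 2 ^ k + 1)) →
      OftenAtLeast μ A t M

/-- Statement 3. -/
def Slow (C : ℕ) : Prop :=
  ∀ w : ℕ → ℕ, Tendsto w atTop atTop → (∀ ε : ℝ, 0 < ε → ∀ᶠ k : ℕ in atTop, (w k : ℝ) ≤ (k : ℝ) ^ ε) →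
    ∀ A : Set ℕ, IsThick A C →
    ∀ (Ω : Type) [MeasurableSpace Ω] (μ : Measure Ω) [IsProbabilityMeasure μ] (t : ℕ → Ω → ℕ),
      (∀ k, Measurable (t k)) → iIndepFun t μ →
      (∀ k : ℕ, ∀ y ≤ w k * 2 ^ k, μ.real {ω | t k ω = y} = 1 / (w k * 2 ^ k + 1)) →
      ∀ᵐ ω ∂μ, ∀ M N : ℕ, ∃ n ≥ N, M ≤ rep (moved A fun k => t k ω) n

theorem large (a : ℝ) {ε : ℝ} (hε : 0 < ε) : ∀ᶠ k : ℕ in atTop, a ≤ (k : ℝ) ^ ε :=
  ((tendsto_rpow_atTop hε).comp tendsto_natCast_atTop_atTop).eventually_ge_atTop a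

theorem bound {k W : ℕ} {ε : ℝ} (hk : 0 < k) (h : (W : ℝ) + 1 ≤ (k : ℝ) ^ ε) :
    (k : ℝ) ^ (-ε) / 2 ^ k ≤ 1 / ((W : ℝ) * 2 ^ k + 1) := by
  have hk0 : (0 : ℝ) < k := by exact_mod_cast hk
  have h1 : (1 : ℝ) ≤ 2 ^ k := one_le_pow₀ (by norm_num)
  have h2 : (0 : ℝ) < (k : ℝ) ^ ε := by positivity
  rw [Real.rpow_neg hk0.le, div_le_div_iff₀ (by positivity) (by positivity), one_mul]
  calc ((k : ℝ) ^ ε)⁻¹ * ((W : ℝ) * 2 ^ k + 1)
      ≤ ((k : ℝ) ^ ε)⁻¹ * ((k : ℝ) ^ ε * 2 ^ k) := by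
        gcongr
        nlinarith
    _ = 2 ^ k := by field_simp

/-- **One random shift per dyadic block.** -/
theorem result : ∀ C M : ℕ, 1 ≤ M → General C M ∧ Uniform C M ∧ Slow C := by
  have hgen : ∀ C M : ℕ, 1 ≤ M → General C M := by
    intro C M hM
    obtain ⟨m₀, h⟩ := Pool.Agent.W6h19.ET.main C M hM
    exact ⟨m₀, fun A hA Ω _ μ _ t ht hind hpr => h A hA.1 hA.2 Ω μ t ht hind hpr⟩
  intro C M hM
  refine ⟨hgen C M hM, ?_, ?_⟩
  · obtain ⟨m₀, h⟩ := hgen C M hM
    refine ⟨m₀, fun m hm A hA Ω _ μ _ t ht hind hpr => h A hA Ω μ t ht hind ?_⟩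
    have hM0 : (0 : ℝ) < 1 / M := by
      have : (0 : ℝ) < M := by exact_mod_cast hM
      positivity
    filter_upwards [large ((m : ℝ) + 1) hM0, eventually_gt_atTop 0] with k hk hk0 y hy
    rw [hpr k y (hy.trans (Nat.mul_le_mul_right _ hm))]
    exact bound hk0 hk
  · intro w hw hwε A hA Ω _ μ _ t ht hind hpr
    rw [ae_all_iff]
    intro M
    rcases Nat.eq_zero_or_pos M with rfl | hM
    · exact Filter.Eventually.of_forall fun ω N => ⟨N, le_rfl, Nat.zero_le _⟩
    obtain ⟨m₀, h⟩ := hgen C M hM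
    refine h A hA Ω μ t ht hind ?_
    have hM0 : (0 : ℝ) < 1 / M := by
      have : (0 : ℝ) < M := by exact_mod_cast hM
      positivity
    filter_upwards [hwε (1 / M / 2) (by positivity), large 2 (show (0 : ℝ) < 1 / M / 2 by positivity),
      eventually_gt_atTop 0, hw.eventually_ge_atTop m₀] with k h1 h2 hk0 h3 y hy
    rw [hpr k y (hy.trans (Nat.mul_le_mul_right _ h3))]
    refine bound hk0 ?_
    have hk0' : (0 : ℝ) < k := by exact_mod_cast hk0
    have h4 : (k : ℝ) ^ (1 / M : ℝ) = (k : ℝ) ^ (1 / M / 2 : ℝ) * (k : ℝ) ^ (1 / M / 2 : ℝ) := by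
      rw [← Real.rpow_add hk0']
      congr 1
      ring
    rw [h4]
    nlinarith

end Pool.Agent.Results.MP_12a1af_nt.BlockShifts
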