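import Pool.Agent.W99.ET.Few

/-!
# MP_12a1af_nt: the gaps of a set with bounded representation function

`rep A n` is the number `r_A(n)` of ordered pairs `(u, v) ∈ A × A` with `u + v = n`. Let `a` be strictly increasing
and `A = {a 0, a 1, …}`; the numbers `a (j + 1) - a j` are the gaps of `A`. `InGAP x0 x L g` means that `g` belongs
to the generalised arithmetic progression `Q = {x0 + c_1 x_1 + ⋯ + c_d x_d : 0 ≤ c_k < L_k}` of dimension `d` and
size (at most) `P = L_1 ⋯ L_d`.

1. If `r_A ≤ m + 1`, then among any `T` consecutive gaps of `A` at least `T / (4 P) ^ (2 (d + 3) ^ m) - 1` lie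
   outside `Q`, for every generalised arithmetic progression `Q`.
2. The same for arbitrary finite sets `G` with `K` elements in place of `Q`, with `2 ^ (2 (K + 2) (K + 3) ^ m)`.
3. So `r_A` is unbounded if for every `m` there are `T` consecutive gaps of `A` and a generalised arithmetic
   progression `Q` such that fewer than `T / (4 P) ^ ((d + 3) ^ m) - 1` of these gaps are outside `Q`.
4. Q1 and Q2 hold for all sets `A` for which the number `K_N` of the different gaps of `A` up to `N` satisfies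
   `K_N ≤ (log N) ^ o(1)` on some sequence of integers `N` (in the precise form stated).

The order of the gaps is arbitrary, so that these sets can have positive entropy.

Method: differences of elements of `A` at bounded distance in the enumeration are sums of boundedly many gaps and
depend only on the coefficients in the progression; so there are few of them, and an iterated pigeonhole argument
gives Hilbert cubes of dimension `m` in `A`, hence `m + 1` representations of some number.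
-/

set_option autoImplicit false

open Filter

namespace Pool.Agent.Results.MP_12a1af_nt.StructuredGaps

/-- `r_A(n)`: the number of ordered pairs `(u, v) ∈ A × A` with `u + v = n`. -/
noncomputable def rep (A : Set ℕ) (n : ℕ) : ℕ :=
  {p : ℕ × ℕ | p.1 ∈ A ∧ p.2 ∈ A ∧ p.1 + p.2 = n}.ncard

/-- `elt A n` is the `n`-th element `a_n` (`n ≥ 1`) of the infinite set `A` listed increasingly. -/
noncomputable def elt (A : Set ℕ) (n : ℕ) : ℕ := Nat.nth (· ∈ A) (n - 1)

/-- `g` belongs to the generalised arithmetic progression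
`{x₀ + c₁ x₁ + ⋯ + c_d x_d : 0 ≤ c_k < L_k}`. -/
def InGAP {d : ℕ} (x0 : ℤ) (x : Fin d → ℤ) (L : Fin d → ℕ) (g : ℤ) : Prop :=
  ∃ c : Fin d → ℕ, (∀ k, c k < L k) ∧ g = x0 + ∑ k, (c k : ℤ) * x k

/-- The set of the gaps `y - x` between consecutive elements `x < y` of `A` with `y ≤ N`. -/
def gaps (A : Set ℕ) (N : ℕ) : Set ℕ :=
  {g | ∃ x ∈ A, ∃ y ∈ A, x < y ∧ y ≤ N ∧ (∀ z ∈ A, z ≤ x ∨ y ≤ z) ∧ g = y - x}

theorem result :
    -- 1. gaps in generalised arithmetic progressions
    (∀ (a : ℕ → ℕ) (m : ℕ), StrictMono a → (∀ n, rep (Set.range a) n ≤ m + 1) →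
      ∀ (d : ℕ) (x0 : ℤ) (x : Fin d → ℤ) (L : Fin d → ℕ), (∀ k, 1 ≤ L k) → ∀ s T : ℕ,
        T ≤ ({j : ℕ | s ≤ j ∧ j < s + T ∧ ¬ InGAP x0 x L ((a (j + 1) : ℤ) - a j)}.ncard + 1) *
          (4 * ∏ k, L k) ^ (2 * (d + 3) ^ m)) ∧
    -- 2. gaps in a finite set
    (∀ (a : ℕ → ℕ) (m : ℕ), StrictMono a → (∀ n, rep (Set.range a) n ≤ m + 1) →
      ∀ (G : Finset ℕ) (s T : ℕ),
        T ≤ ({j : ℕ | s ≤ j ∧ j < s + T ∧ a (j + 1) - a j ∉ G}.ncard + 1) *
          2 ^ (2 * (G.card + 2) * (G.card + 3) ^ m)) ∧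
    -- 3. sets with structured gaps have unbounded representation functions
    (∀ a : ℕ → ℕ, StrictMono a →
      (∀ m : ℕ, ∃ (d : ℕ) (x0 : ℤ) (x : Fin d → ℤ) (L : Fin d → ℕ) (s T : ℕ), (∀ k, 1 ≤ L k) ∧
        ({j : ℕ | s ≤ j ∧ j < s + T ∧ ¬ InGAP x0 x L ((a (j + 1) : ℤ) - a j)}.ncard + 1) *
          (4 * ∏ k, L k) ^ ((d + 3) ^ m) < T) →
      ∀ M : ℕ, ∃ n, M < rep (Set.range a) n) ∧
    -- 4. few different gaps
    (∀ A : Set ℕ, ((∀ᶠ n : ℕ in atTop, 1 ≤ rep A n) ∨
        (A.Infinite ∧ ∃ C : ℝ, ∀ n : ℕ, 1 ≤ n → (elt A n : ℝ) ≤ C * (n : ℝ) ^ 2)) →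
      (∀ M : ℕ, ∃ᶠ N : ℕ in atTop, ((gaps A N).ncard : ℝ) ^ M ≤ Real.log N) →
      ∀ M : ℕ, ∃ n, M < rep A n) := by
  refine ⟨?_, ?_, ?_, ?_⟩
  · intro a m ha hm d x0 x L hL s T
    exact Pool.Agent.W99.ET.main_window ha hL s T m hm
  · intro a m ha hm G s T
    exact Pool.Agent.W99.ET.few ha G s T m hm
  · intro a ha h M
    by_contra hcon
    push Not at hcon
    obtain ⟨d, x0, x, L, s, T, hL, hT⟩ := h (M + 1)
    have h1 := Pool.Agent.W99.ET.main_window (x0 := x0) (x := x) ha hL s T M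
      (fun n => (hcon n).trans (by omega))
    have hP : 1 ≤ ∏ k, L k := Nat.succ_le_of_lt (Finset.prod_pos fun k _ => hL k)
    have h2 : (4 * ∏ k, L k) ^ (2 * (d + 3) ^ M) ≤ (4 * ∏ k, L k) ^ ((d + 3) ^ (M + 1)) := by
      refine Nat.pow_le_pow_right (by omega) ?_
      rw [pow_succ, mul_comm]
      exact Nat.mul_le_mul_left _ (by omega)
    have h3 := Nat.mul_le_mul_left
      ({j : ℕ | s ≤ j ∧ j < s + T ∧ ¬ InGAP x0 x L ((a (j + 1) : ℤ) - a j)}.ncard + 1) h2
    exact absurd (h1.trans h3) (not_le.2 hT)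
  · intro A hA hfew M
    have key : A.Infinite ∧ ∃ C : ℝ, ∀ n, (Nat.nth (· ∈ A) n : ℝ) ≤ C * (n + 1) ^ 2 := by
      rcases hA with h | ⟨hinf, C, hC⟩
      · exact Pool.Agent.W99.ET.thick_of_basis h
      · refine ⟨hinf, C, ?_⟩
        intro n
        have := hC (n + 1) (by omega)
        simpa [elt] using this
    obtain ⟨hinf, C, hC⟩ := key
    have hmono : StrictMono (Nat.nth (· ∈ A)) := Nat.nth_strictMono hinf
    have hrange : Set.range (Nat.nth (· ∈ A)) = A := Nat.range_nth_of_infinite hinf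
    have h1 := Pool.Agent.W99.ET.unbounded_of_few hmono hC (by
      rw [hrange]
      exact hfew) M
    rw [hrange] at h1
    exact h1

end Pool.Agent.Results.MP_12a1af_nt.StructuredGaps
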